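import Pool.Agent.Lib_MP_cc07e8_cd.D000
import Pool.Agent.Lib_MP_cc07e8_cd.D001
import Pool.Agent.Lib_MP_cc07e8_cd.D002
import Pool.Agent.Lib_MP_cc07e8_cd.D003
import Pool.Agent.Lib_MP_cc07e8_cd.D004
import Pool.Agent.Lib_MP_cc07e8_cd.D005
import Pool.Agent.Lib_MP_cc07e8_cd.D006
import Pool.Agent.Lib_MP_cc07e8_cd.D007
import Pool.Agent.Lib_MP_cc07e8_cd.D008
import Pool.Agent.Lib_MP_cc07e8_cd.D009
import Pool.Agent.Lib_MP_cc07e8_cd.D010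
import Pool.Agent.Lib_MP_cc07e8_cd.D011
import Pool.Agent.Lib_MP_cc07e8_cd.D012
import Pool.Agent.Lib_MP_cc07e8_cd.D013
import Pool.Agent.Lib_MP_cc07e8_cd.D014
import Pool.Agent.Lib_MP_cc07e8_cd.D015
import Pool.Agent.Lib_MP_cc07e8_cd.D016
import Pool.Agent.Lib_MP_cc07e8_cd.D017
import Pool.Agent.Lib_MP_cc07e8_cd.D018
import Pool.Agent.Lib_MP_cc07e8_cd.D019
import Pool.Agent.Lib_MP_cc07e8_cd.D020
import Pool.Agent.Lib_MP_cc07e8_cd.D021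
import Pool.Agent.Lib_MP_cc07e8_cd.D022
import Pool.Agent.Lib_MP_cc07e8_cd.D023
import Pool.Agent.Lib_MP_cc07e8_cd.D024
import Pool.Agent.Lib_MP_cc07e8_cd.D025
import Pool.Agent.Lib_MP_cc07e8_cd.D026
import Pool.Agent.Lib_MP_cc07e8_cd.D027
import Pool.Agent.Lib_MP_cc07e8_cd.D028
import Pool.Agent.Lib_MP_cc07e8_cd.D029
import Pool.Agent.Lib_MP_cc07e8_cd.D030
import Pool.Agent.Lib_MP_cc07e8_cd.D031
import Pool.Agent.Lib_MP_cc07e8_cd.D032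
import Pool.Agent.Lib_MP_cc07e8_cd.D033
import Pool.Agent.Lib_MP_cc07e8_cd.D034
import Pool.Agent.Lib_MP_cc07e8_cd.D035
import Pool.Agent.Lib_MP_cc07e8_cd.D036
import Pool.Agent.Lib_MP_cc07e8_cd.D037
import Pool.Agent.Lib_MP_cc07e8_cd.D038
import Pool.Agent.Lib_MP_cc07e8_cd.D039
import Pool.Agent.Lib_MP_cc07e8_cd.D040
import Pool.Agent.Lib_MP_cc07e8_cd.D041
import Pool.Agent.Lib_MP_cc07e8_cd.D042
import Pool.Agent.Lib_MP_cc07e8_cd.D043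
import Pool.Agent.Lib_MP_cc07e8_cd.D044
import Pool.Agent.Lib_MP_cc07e8_cd.D045
import Pool.Agent.Lib_MP_cc07e8_cd.D046
import Pool.Agent.Lib_MP_cc07e8_cd.D047
import Pool.Agent.Lib_MP_cc07e8_cd.D048
import Pool.Agent.Lib_MP_cc07e8_cd.D049
import Pool.Agent.Lib_MP_cc07e8_cd.D050
import Pool.Agent.Lib_MP_cc07e8_cd.D051
import Pool.Agent.Lib_MP_cc07e8_cd.D052
import Pool.Agent.Lib_MP_cc07e8_cd.D053
import Pool.Agent.Lib_MP_cc07e8_cd.D054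
import Pool.Agent.Lib_MP_cc07e8_cd.D055
import Pool.Agent.Lib_MP_cc07e8_cd.D056
import Pool.Agent.Lib_MP_cc07e8_cd.D057
import Pool.Agent.Lib_MP_cc07e8_cd.D058
import Pool.Agent.Lib_MP_cc07e8_cd.D059
import Pool.Agent.Lib_MP_cc07e8_cd.D060
import Pool.Agent.Lib_MP_cc07e8_cd.D061
import Pool.Agent.Lib_MP_cc07e8_cd.D062
import Pool.Agent.Lib_MP_cc07e8_cd.D063
import Pool.Agent.Lib_MP_cc07e8_cd.D064
import Pool.Agent.Lib_MP_cc07e8_cd.D065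
import Pool.Agent.Lib_MP_cc07e8_cd.D066
import Pool.Agent.Lib_MP_cc07e8_cd.D067
import Pool.Agent.Lib_MP_cc07e8_cd.D068
import Pool.Agent.Lib_MP_cc07e8_cd.D069
import Pool.Agent.Lib_MP_cc07e8_cd.D070
import Pool.Agent.Lib_MP_cc07e8_cd.D071
import Pool.Agent.Lib_MP_cc07e8_cd.D072
import Pool.Agent.Lib_MP_cc07e8_cd.D073
import Pool.Agent.Lib_MP_cc07e8_cd.D074
import Pool.Agent.Lib_MP_cc07e8_cd.D075
import Pool.Agent.Lib_MP_cc07e8_cd.D076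
import Pool.Agent.Lib_MP_cc07e8_cd.D077
import Pool.Agent.Lib_MP_cc07e8_cd.D078
import Pool.Agent.Lib_MP_cc07e8_cd.D079
import Pool.Agent.Lib_MP_cc07e8_cd.D080
import Pool.Agent.Lib_MP_cc07e8_cd.D081
import Pool.Agent.Lib_MP_cc07e8_cd.D082
import Pool.Agent.Lib_MP_cc07e8_cd.D083
import Pool.Agent.Lib_MP_cc07e8_cd.D084
import Pool.Agent.Lib_MP_cc07e8_cd.D085
import Pool.Agent.Lib_MP_cc07e8_cd.D086
import Pool.Agent.Lib_MP_cc07e8_cd.D087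
import Pool.Agent.Lib_MP_cc07e8_cd.D088
import Pool.Agent.Lib_MP_cc07e8_cd.D089
import Pool.Agent.Lib_MP_cc07e8_cd.D090
import Pool.Agent.Lib_MP_cc07e8_cd.D091
import Pool.Agent.Lib_MP_cc07e8_cd.D092

/-! # MP_cc07e8_co: data of the explicit start, all modules -/

namespace Pool.Agent.Moser.Ck.Cd

/-- all modules -/
noncomputable def ms : List Md := [d0, d1, d2, d3, d4, d5, d6, d7, d8, d9, d10, d11, d12, d13, d14, d15, d16, d17, d18, d19, d20, d21, d22, d23, d24, d25, d26, d27, d28, d29, d30, d31, d32, d33, d34, d35, d36, d37, d38, d39, d40, d41, d42, d43, d44, d45, d46, d47, d48, d49, d50, d51, d52, d53, d54, d55, d56, d57, d58, d59, d60, d61, d62, d63, d64, d65, d66, d67, d68, d69, d70, d71, d72, d73, d74, d75, d76, d77, d78, d79, d80, d81, d82, d83, d84, d85, d86, d87, d88, d89, d90, d91, d92]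

end Pool.Agent.Moser.Ck.Cd
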