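import Pool.Agent.Lib_MP_cc07e8_cd.Ds

/-! # MP_cc07e8_co: check of module 79 -/

namespace Pool.Agent.Moser.Ck.Cd

set_option maxRecDepth 100000 in
theorem g79 : ckMod 5192296858534827628530496329220096 6 ms 79 = true := by
  decide +kernel

end Pool.Agent.Moser.Ck.Cd
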